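import Mathlib
import Pool.Agent.H622.Gb5

set_option autoImplicit false

/-!
# The law of the parities given a large maximum excursion

For a random `n ≤ x` the first parities of the trajectory of `n` are independent fair coin flips. Here it is
shown that, given the rare event that the trajectory exceeds `lam * n` (before it reaches a value `≤ y`), they
are asymptotically independent coin flips with the probability `3 / 4` of an odd term, in total variation,
up to the first passage over the level `lam / ℓ`, `ℓ` a constant: everything before the last `O(1)` of the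
climb. In particular this holds for the first `k` parities if `k ≤ (log lam - K √(log lam)) / up`,
`up = log (27/16) / 4`. The residue class of `n` modulo `2 ^ k` has the conditional probability
`3 ^ o / 4 ^ k`, where `o` is the number of the odd terms among the first `k` terms of the trajectory.
-/

namespace Pool.Agent.Results.MP_0a5adf_nt.ParitiesGivenExcursion

open Filter Topology

/-- the accelerated `3x+1` map -/
def T (n : ℕ) : ℕ := if n % 2 = 0 then n / 2 else (3 * n + 1) / 2

/-- the trajectory of `n` exceeds `V` before it reaches a value `≤ y` -/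
def ExceedsBefore (V y : ℝ) (n : ℕ) : Prop :=
  ∃ k, V < (T^[k] n : ℕ) ∧ ∀ j ≤ k, y < (T^[j] n : ℕ)

/-- the number of positive integers `n ≤ x` with the property `P` -/
noncomputable def count (P : ℕ → Prop) (x : ℝ) : ℝ := ({n : ℕ | 1 ≤ n ∧ (n : ℝ) ≤ x ∧ P n}.ncard : ℝ)

/-- the number of the odd terms among the first `k` terms of the trajectory of `n` -/
def odds (k n : ℕ) : ℕ := ((Finset.range k).filter fun j => T^[j] n % 2 = 1).card

/-- the factor `3 ^ odds / 2 ^ k` by which the first `k` steps multiply -/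
noncomputable def growth (k n : ℕ) : ℝ := 3 ^ odds k n / 2 ^ k

/-- `k` is the time of the first passage of the growth factor over `z` -/
def Hits (z : ℝ) (k n : ℕ) : Prop := z ≤ growth k n ∧ ∀ j < k, growth j n < z

/-- the probability that `k` independent random bits, each equal to `1` with the probability `3 / 4`, are the
parities of the first `k` terms of the trajectory of `r` -/
noncomputable def mass (k r : ℕ) : ℝ := 3 ^ odds k r / 4 ^ k

/-- the rate of growth per step when three quarters of the steps are odd -/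
noncomputable def up : ℝ := Real.log (27 / 16) / 4

theorem T_eq : T = Pool.Agent.Helper894.Collatz.T := rfl

theorem odds_eq (k n : ℕ) : odds k n = Pool.Agent.Helper894.Collatz.od k n := by
  unfold odds Pool.Agent.Helper894.Collatz.od
  rw [Finset.card_filter]
  apply Finset.sum_congr rfl
  intro i _
  rw [← T_eq]
  rcases Nat.mod_two_eq_zero_or_one (T^[i] n) with h | h
  · rw [h]; rfl
  · rw [h]; rfl

theorem growth_eq (k n : ℕ) : growth k n = Pool.Agent.H828R3.Exc.MM k n := by
  unfold growth Pool.Agent.H828R3.Exc.MM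
  rw [odds_eq]

theorem Hits_eq (z : ℝ) (k n : ℕ) : Hits z k n ↔ Pool.Agent.H622.Gb.FP z k n := by
  unfold Hits Pool.Agent.H622.Gb.FP
  simp only [growth_eq]

theorem mass_eq (k r : ℕ) : mass k r = Pool.Agent.H828R3.Exc.MM k r / 2 ^ k := by
  unfold mass Pool.Agent.H828R3.Exc.MM
  rw [odds_eq, div_div, ← mul_pow]
  norm_num

open scoped Classical in
theorem count_eq (P : ℕ → Prop) {x : ℝ} (hx : 0 ≤ x) :
    count P x = (((Finset.Icc 1 ⌊x⌋₊).filter P).card : ℝ) := by
  unfold count
  have : {n : ℕ | 1 ≤ n ∧ (n : ℝ) ≤ x ∧ P n} = (((Finset.Icc 1 ⌊x⌋₊).filter P : Finset ℕ) : Set ℕ) := by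
    ext n
    rw [Finset.coe_filter]
    simp only [Set.mem_ofPred_eq, Finset.mem_Icc, Nat.le_floor_iff hx]
    tauto
  rw [this, Set.ncard_coe_finset]

open scoped Classical in
theorem w_eq (z : ℝ) (S : ℕ → Set ℕ) (k : ℕ) :
    Pool.Agent.H622.Gb.w (Pool.Agent.H622.Gb.DS z S) k =
      ∑ r ∈ (Finset.range (2 ^ k)).filter (fun r => Hits z k r ∧ r ∈ S k), mass k r := by
  rw [Finset.sum_filter]
  unfold Pool.Agent.H622.Gb.w
  rw [Finset.sum_div]
  apply Finset.sum_congr rfl
  intro r hr
  rw [Finset.mem_range] at hr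
  have h : Pool.Agent.H622.Gb.DS z S k r ↔ Hits z k r ∧ r ∈ S k := by
    unfold Pool.Agent.H622.Gb.DS
    rw [Nat.mod_eq_of_lt hr, Hits_eq]
  by_cases h1 : Hits z k r ∧ r ∈ S k
  · rw [if_pos (h.2 h1), if_pos h1, mass_eq]
  · rw [if_neg (fun h2 => h1 (h.1 h2)), if_neg h1, zero_div]

open scoped Classical in
theorem PK_eq (k : ℕ) (S : Set ℕ) :
    Pool.Agent.H622.Gb.PK k S = ∑ r ∈ (Finset.range (2 ^ k)).filter (fun r => r ∈ S), mass k r := by
  rw [Finset.sum_filter]
  unfold Pool.Agent.H622.Gb.PK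
  rw [Finset.sum_div]
  apply Finset.sum_congr rfl
  intro r _
  by_cases h1 : r ∈ S
  · rw [if_pos h1, if_pos h1, mass_eq]
  · rw [if_neg h1, if_neg h1, zero_div]

open scoped Classical in
/-- THE LAW OF THE PARITIES GIVEN A LARGE EXCURSION. Let `0 < θ ≤ θ' < 1`, `v < θ / 21` and `ε > 0`.
(1) There are `ℓ`, `L` and `x₀` such that for all `x ≥ x₀`, `x ^ θ ≤ y ≤ x ^ θ'`, `L ≤ lam ≤ x ^ v`, all
`1 ≤ z ≤ lam / ℓ` and arbitrary sets `S k` of residues modulo `2 ^ k`: among the `n ≤ x` whose trajectory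
exceeds `lam * n` before it reaches a value `≤ y`, the proportion of those for which the growth factor passes `z`
for the first time at some time `k` and `n` modulo `2 ^ k` is in `S k` differs by at most `ε` from the sum of
the masses of the residues with these properties.
(2) There are `K`, `L` and `x₀` such that for `x`, `y`, `lam` as before and all `k` with
`up * k + K √(log lam) ≤ log lam`: among the same `n` the proportion of those with `n` modulo `2 ^ k` in `S`
differs by at most `ε` from the mass of `S`, for every set `S` of residues modulo `2 ^ k`. -/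
theorem result (θ θ' v : ℝ) (hθ : 0 < θ) (hθθ' : θ ≤ θ') (hθ' : θ' < 1) (hv : v < θ / 21)
    (ε : ℝ) (hε : 0 < ε) :
    (∃ ℓ L x₀ : ℝ, ∀ x y lam z : ℝ, x₀ ≤ x → x ^ θ ≤ y → y ≤ x ^ θ' → L ≤ lam → lam ≤ x ^ v →
      1 ≤ z → ℓ * z ≤ lam → ∀ S : ℕ → Set ℕ,
      |count (fun n => ExceedsBefore (lam * n) y n ∧ ∃ k, Hits z k n ∧ n % 2 ^ k ∈ S k) x -
        (∑' k, ∑ r ∈ (Finset.range (2 ^ k)).filter (fun r => Hits z k r ∧ r ∈ S k), mass k r) *
          count (fun n => ExceedsBefore (lam * n) y n) x| ≤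
        ε * count (fun n => ExceedsBefore (lam * n) y n) x) ∧
    (∃ K L x₀ : ℝ, ∀ x y lam : ℝ, x₀ ≤ x → x ^ θ ≤ y → y ≤ x ^ θ' → L ≤ lam → lam ≤ x ^ v →
      ∀ k : ℕ, up * k + K * Real.sqrt (Real.log lam) ≤ Real.log lam → ∀ S : Set ℕ,
      |count (fun n => ExceedsBefore (lam * n) y n ∧ n % 2 ^ k ∈ S) x -
        (∑ r ∈ (Finset.range (2 ^ k)).filter (fun r => r ∈ S), mass k r) *
          count (fun n => ExceedsBefore (lam * n) y n) x| ≤
        ε * count (fun n => ExceedsBefore (lam * n) y n) x) := by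
  constructor
  · obtain ⟨ℓ, L, x0, h⟩ := Pool.Agent.H622.Gb.stopped hθ hθθ' hθ' hv hε
    refine ⟨ℓ, L, max x0 0, fun x y lam z hx hy1 hy2 hl1 hl2 hz hℓ S => ?_⟩
    have hx0 : 0 ≤ x := (le_max_right _ _).trans hx
    have h1 := h x y lam z ((le_max_left _ _).trans hx) hy1 hy2 hl1 hl2 hz hℓ S
    have c1 : count (fun n => ExceedsBefore (lam * n) y n ∧ ∃ k, Hits z k n ∧ n % 2 ^ k ∈ S k) x =
        (((Finset.Icc 1 ⌊x⌋₊).filter fun n : ℕ =>
        ExceedsBefore (lam * n) y n ∧ ∃ k, Hits z k n ∧ n % 2 ^ k ∈ S k).card : ℝ) := by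
      rw [count_eq _ hx0]; congr!
    have c2 : count (fun n => ExceedsBefore (lam * n) y n) x =
        (((Finset.Icc 1 ⌊x⌋₊).filter fun n : ℕ => ExceedsBefore (lam * n) y n).card : ℝ) := by
      rw [count_eq _ hx0]
    rw [c1, c2]
    have e1 : ∑' k, Pool.Agent.H622.Gb.w (Pool.Agent.H622.Gb.DS z S) k =
        ∑' k, ∑ r ∈ (Finset.range (2 ^ k)).filter (fun r => Hits z k r ∧ r ∈ S k), mass k r :=
      tsum_congr fun k => w_eq z S k
    rw [e1] at h1
    have e2 : ((Finset.Icc 1 ⌊x⌋₊).filter fun n : ℕ => Pool.Agent.W36.SL.Exc lam y n ∧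
        ∃ k, Pool.Agent.H622.Gb.DS z S k n) = (Finset.Icc 1 ⌊x⌋₊).filter fun n : ℕ =>
        ExceedsBefore (lam * n) y n ∧ ∃ k, Hits z k n ∧ n % 2 ^ k ∈ S k := by
      apply Finset.filter_congr
      intro n _
      apply and_congr Iff.rfl
      apply exists_congr
      intro k
      unfold Pool.Agent.H622.Gb.DS
      rw [Hits_eq]
    have e3 : (Finset.Icc 1 ⌊x⌋₊).filter (Pool.Agent.W36.SL.Exc lam y) = (Finset.Icc 1 ⌊x⌋₊).filter
        fun n : ℕ => ExceedsBefore (lam * n) y n := Finset.filter_congr fun n _ => Iff.rfl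
    rw [e2, e3] at h1
    exact h1
  · obtain ⟨K, L, x0, h⟩ := Pool.Agent.H622.Gb.window hθ hθθ' hθ' hv hε
    refine ⟨K, L, max x0 0, fun x y lam hx hy1 hy2 hl1 hl2 k hk S => ?_⟩
    have hx0 : 0 ≤ x := (le_max_right _ _).trans hx
    have h1 := h x y lam ((le_max_left _ _).trans hx) hy1 hy2 hl1 hl2 k hk S
    have c1 : count (fun n => ExceedsBefore (lam * n) y n ∧ n % 2 ^ k ∈ S) x =
        (((Finset.Icc 1 ⌊x⌋₊).filter fun n : ℕ =>
        ExceedsBefore (lam * n) y n ∧ n % 2 ^ k ∈ S).card : ℝ) := by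
      rw [count_eq _ hx0]; congr!
    have c2 : count (fun n => ExceedsBefore (lam * n) y n) x =
        (((Finset.Icc 1 ⌊x⌋₊).filter fun n : ℕ => ExceedsBefore (lam * n) y n).card : ℝ) := by
      rw [count_eq _ hx0]
    rw [c1, c2]
    have e2 : ((Finset.Icc 1 ⌊x⌋₊).filter fun n : ℕ => Pool.Agent.W36.SL.Exc lam y n ∧ n % 2 ^ k ∈ S) =
        (Finset.Icc 1 ⌊x⌋₊).filter fun n : ℕ => ExceedsBefore (lam * n) y n ∧ n % 2 ^ k ∈ S :=
      Finset.filter_congr fun n _ => Iff.rfl
    have e3 : (Finset.Icc 1 ⌊x⌋₊).filter (Pool.Agent.W36.SL.Exc lam y) = (Finset.Icc 1 ⌊x⌋₊).filter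
        fun n : ℕ => ExceedsBefore (lam * n) y n := Finset.filter_congr fun n _ => Iff.rfl
    rw [PK_eq, e2, e3] at h1
    exact h1

end Pool.Agent.Results.MP_0a5adf_nt.ParitiesGivenExcursion
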