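import Mathlib
import Pool.Agent.H622.Ct8

set_option autoImplicit false

/-!
# The central limit theorem for the time of a large excursion

A positive proportion `C / lam` of the integers `n` has a trajectory which exceeds `lam * n`. It is shown that,
given this event, the time which the trajectory needs to climb is asymptotically normal with the mean
`log lam / up` and the standard deviation `spread * √(log lam)`, `up = log (27/16) / 4`, in the Kolmogorov
distance. This holds for the time of the first passage over `lam * n`, for the last time above `lam * n`, for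
the time of the maximum, and uniformly for every time at which the trajectory is above `lam * n` (before it
has reached a value `≤ y`).
-/

namespace Pool.Agent.Results.MP_0a5adf_nt.PassageTimeNormal

open Filter Topology

/-- the accelerated `3x+1` map -/
def T (n : ℕ) : ℕ := if n % 2 = 0 then n / 2 else (3 * n + 1) / 2

/-- the trajectory of `n` exceeds `V` before it reaches a value `≤ y` -/
def ExceedsBefore (V y : ℝ) (n : ℕ) : Prop :=
  ∃ k, V < (T^[k] n : ℕ) ∧ ∀ j ≤ k, y < (T^[j] n : ℕ)

/-- the number of positive integers `n ≤ x` with the property `P` -/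
noncomputable def count (P : ℕ → Prop) (x : ℝ) : ℝ := ({n : ℕ | 1 ≤ n ∧ (n : ℝ) ≤ x ∧ P n}.ncard : ℝ)

/-- the rate of growth per step when three quarters of the steps are odd -/
noncomputable def up : ℝ := Real.log (27 / 16) / 4

/-- `√3 / 4 * log 3` is the standard deviation of one step when three quarters of the steps are odd -/
noncomputable def spread : ℝ := Real.sqrt 3 / 4 * Real.log 3 / (up * Real.sqrt up)

/-- the distribution function of the standard normal law -/
noncomputable def Phi (u : ℝ) : ℝ := (∫ t in Set.Iic u, Real.exp (-t ^ 2 / 2)) / Real.sqrt (2 * Real.pi)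

open scoped Classical in
theorem count_eq (P : ℕ → Prop) {x : ℝ} (hx : 0 ≤ x) :
    count P x = (((Finset.Icc 1 ⌊x⌋₊).filter P).card : ℝ) := by
  unfold count
  have : {n : ℕ | 1 ≤ n ∧ (n : ℝ) ≤ x ∧ P n} = (((Finset.Icc 1 ⌊x⌋₊).filter P : Finset ℕ) : Set ℕ) := by
    ext n
    rw [Finset.coe_filter]
    simp only [Set.mem_ofPred_eq, Finset.mem_Icc, Nat.le_floor_iff hx]
    tauto
  rw [this, Set.ncard_coe_finset]

open scoped Classical in
/-- THE CENTRAL LIMIT THEOREM FOR THE TIME OF A LARGE EXCURSION. Let `0 < θ ≤ θ' < 1`, `v < θ / 21` and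
`ε > 0`. There are `L` and `x₀` such that for all `x ≥ x₀`, `x ^ θ ≤ y ≤ x ^ θ'` and `L ≤ lam ≤ x ^ v` the
following holds. For every `n` whose trajectory exceeds `lam * n` before it reaches a value `≤ y` let `κ n` be
a time at which it is above `lam * n`, before it has reached a value `≤ y` (for example the first such time,
the last one, or the time of the maximum). Then, for all real `u`, the proportion of those with
`κ n ≤ log lam / up + u * spread * √(log lam)` among these `n ≤ x` differs by at most `ε` from `Phi u`. -/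
theorem result (θ θ' v : ℝ) (hθ : 0 < θ) (hθθ' : θ ≤ θ') (hθ' : θ' < 1) (hv : v < θ / 21)
    (ε : ℝ) (hε : 0 < ε) :
    ∃ L x₀ : ℝ, ∀ x y lam : ℝ, x₀ ≤ x → x ^ θ ≤ y → y ≤ x ^ θ' → L ≤ lam → lam ≤ x ^ v →
      ∀ κ : ℕ → ℕ,
      (∀ n : ℕ, ExceedsBefore (lam * n) y n →
        lam * n < (T^[κ n] n : ℕ) ∧ ∀ j ≤ κ n, y < (T^[j] n : ℕ)) →
      ∀ u : ℝ,
      |count (fun n => ExceedsBefore (lam * n) y n ∧
          (κ n : ℝ) ≤ Real.log lam / up + u * spread * Real.sqrt (Real.log lam)) x -
        Phi u * count (fun n => ExceedsBefore (lam * n) y n) x| ≤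
        ε * count (fun n => ExceedsBefore (lam * n) y n) x := by
  obtain ⟨L, x0, h⟩ := Pool.Agent.H622.Ct.passage_unif hθ hθθ' hθ' hv hε
  refine ⟨L, max x0 0, fun x y lam hx hy1 hy2 hl1 hl2 κ hκ u => ?_⟩
  have hx0 : 0 ≤ x := (le_max_right _ _).trans hx
  have h1 := h x y lam ((le_max_left _ _).trans hx) hy1 hy2 hl1 hl2 κ hκ u
  have c1 : count (fun n => ExceedsBefore (lam * n) y n ∧
      (κ n : ℝ) ≤ Real.log lam / up + u * spread * Real.sqrt (Real.log lam)) x =
      (((Finset.Icc 1 ⌊x⌋₊).filter fun n : ℕ => ExceedsBefore (lam * n) y n ∧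
      (κ n : ℝ) ≤ Real.log lam / up + u * spread * Real.sqrt (Real.log lam)).card : ℝ) := by
    rw [count_eq _ hx0]; congr!
  have c2 : count (fun n => ExceedsBefore (lam * n) y n) x =
      (((Finset.Icc 1 ⌊x⌋₊).filter fun n : ℕ => ExceedsBefore (lam * n) y n).card : ℝ) := by
    rw [count_eq _ hx0]
  rw [c1, c2]
  have e1 : Pool.Agent.H622.Ct.Phi u = Phi u := Pool.Agent.H622.Ct.Phi_explicit u
  rw [e1] at h1
  have e2 : ((Finset.Icc 1 ⌊x⌋₊).filter fun n : ℕ => Pool.Agent.W36.SL.Exc lam y n ∧
      (κ n : ℝ) ≤ Pool.Agent.H622.Ct.tm u lam) = (Finset.Icc 1 ⌊x⌋₊).filter fun n : ℕ =>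
      ExceedsBefore (lam * n) y n ∧
      (κ n : ℝ) ≤ Real.log lam / up + u * spread * Real.sqrt (Real.log lam) :=
    Finset.filter_congr fun n _ => Iff.rfl
  have e3 : (Finset.Icc 1 ⌊x⌋₊).filter (Pool.Agent.W36.SL.Exc lam y) = (Finset.Icc 1 ⌊x⌋₊).filter
      fun n : ℕ => ExceedsBefore (lam * n) y n := Finset.filter_congr fun n _ => Iff.rfl
  rw [e2, e3] at h1
  exact h1

end Pool.Agent.Results.MP_0a5adf_nt.PassageTimeNormal
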