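import Mathlib
import Pool.Agent.H622.Sh4

set_option autoImplicit false

/-!
# The shape of the trajectories with a large maximum excursion

The stochastic models of the `3x+1` iteration (Lagarias and Weiss, Kontorovich and Lagarias) predict that the
trajectories with an extreme maximum excursion look like a tent: the logarithm climbs along a straight line of
slope `log (27/16) / 4` (three quarters of the steps are odd) and descends along a straight line of slope
`-log (4/3) / 2` (one half of the steps is odd). The theorem of this file proves this for all but a proportion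
`lam ^ (-δ)` of the `n ≤ x` whose trajectory exceeds `lam * n`, uniformly for `L ≤ lam ≤ x ^ v`.
-/

namespace Pool.Agent.Results.MP_0a5adf_nt.TentShape

open Filter Topology

/-- the accelerated `3x+1` map -/
def T (n : ℕ) : ℕ := if n % 2 = 0 then n / 2 else (3 * n + 1) / 2

/-- the trajectory of `n` exceeds `V` before it reaches a value `≤ y` -/
def ExceedsBefore (V y : ℝ) (n : ℕ) : Prop :=
  ∃ k, V < (T^[k] n : ℕ) ∧ ∀ j ≤ k, y < (T^[j] n : ℕ)

/-- the number of positive integers `n ≤ x` with the property `P` -/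
noncomputable def count (P : ℕ → Prop) (x : ℝ) : ℝ := ({n : ℕ | 1 ≤ n ∧ (n : ℝ) ≤ x ∧ P n}.ncard : ℝ)

/-- the slope of the climb, per step -/
noncomputable def up : ℝ := Real.log (27 / 16) / 4

/-- the slope of the descent, per step -/
noncomputable def down : ℝ := Real.log (4 / 3) / 2

/-- Let `k` be the time of the first passage over `lam * n`. Then `up * k` is close to `log lam`; up to the time
`k` the logarithm of the trajectory is close to a straight line of slope `up`, both up to `η * log lam`; and from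
the time `k` up to the time `log n / log 2` it is close to a straight line of slope `-down`, up to
`η * log n`. -/
def Tent (η lam : ℝ) (n : ℕ) : Prop :=
  ∃ k : ℕ, lam * n < (T^[k] n : ℕ) ∧ (∀ j < k, ((T^[j] n : ℕ) : ℝ) ≤ lam * n) ∧
    |up * k - Real.log lam| ≤ η * Real.log lam ∧
    (∀ j ≤ k, |Real.log (T^[j] n : ℕ) - Real.log n - up * j| ≤ η * Real.log lam) ∧
    (∀ j, k ≤ j → 2 ^ j ≤ n →
      |Real.log (T^[j] n : ℕ) - Real.log (lam * n) + down * ((j : ℝ) - k)| ≤ η * Real.log n)

theorem T_eq : T = Pool.Agent.Helper894.Collatz.T := rfl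

open scoped Classical in
theorem count_eq (P : ℕ → Prop) {x : ℝ} (hx : 0 ≤ x) :
    count P x = (((Finset.Icc 1 ⌊x⌋₊).filter P).card : ℝ) := by
  unfold count
  have : {n : ℕ | 1 ≤ n ∧ (n : ℝ) ≤ x ∧ P n} = (((Finset.Icc 1 ⌊x⌋₊).filter P : Finset ℕ) : Set ℕ) := by
    ext n
    rw [Finset.coe_filter]
    simp only [Set.mem_ofPred_eq, Finset.mem_Icc, Nat.le_floor_iff hx]
    tauto
  rw [this, Set.ncard_coe_finset]

theorem Tent.mono {η η' lam : ℝ} {n : ℕ} (hlam : 1 ≤ lam) (hη : η ≤ η') (h : Tent η lam n) :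
    Tent η' lam n := by
  obtain ⟨k, h1, h2, h3, h4, h5⟩ := h
  have a1 : η * Real.log lam ≤ η' * Real.log lam :=
    mul_le_mul_of_nonneg_right hη (Real.log_nonneg hlam)
  have a2 : η * Real.log n ≤ η' * Real.log n :=
    mul_le_mul_of_nonneg_right hη (Real.log_natCast_nonneg n)
  exact ⟨k, h1, h2, h3.trans a1, fun j hj => (h4 j hj).trans a1, fun j hj hj2 => (h5 j hj hj2).trans a2⟩

/-- THE TENT SHAPE OF LARGE EXCURSIONS. Let `0 < θ ≤ θ' < 1`, `v < θ / 21` and `η > 0`. There are `δ > 0`, `L`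
and `x₀` such that for all `x ≥ x₀`, all `x ^ θ ≤ y ≤ x ^ θ'` and all `L ≤ lam ≤ x ^ v`: among the `n ≤ x` whose
trajectory exceeds `lam * n` before it reaches a value `≤ y`, all but a proportion at most `lam ^ (-δ)` have a
trajectory with the shape of a tent, as in the definition `Tent`. -/
theorem result (θ θ' v η : ℝ) (hθ : 0 < θ) (hθθ' : θ ≤ θ') (hθ' : θ' < 1) (hv : v < θ / 21) (hη : 0 < η) :
    ∃ δ : ℝ, 0 < δ ∧ ∃ L x₀ : ℝ, ∀ x y lam : ℝ, x₀ ≤ x → x ^ θ ≤ y → y ≤ x ^ θ' → L ≤ lam → lam ≤ x ^ v →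
      count (fun n => ExceedsBefore (lam * n) y n ∧ ¬ Tent η lam n) x ≤
        lam ^ (-δ) * count (fun n => ExceedsBefore (lam * n) y n) x := by
  classical
  obtain ⟨δ, hδ, L, x0, h⟩ := Pool.Agent.H622.Sh.tent_asym hθ hθθ' hθ' hv
    (show 0 < min η 1 from lt_min hη one_pos) (min_le_right _ _)
  refine ⟨δ, hδ, max L 1, max x0 0, fun x y lam hx hy1 hy2 hl1 hl2 => ?_⟩
  have hx0 : 0 ≤ x := (le_max_right _ _).trans hx
  have hlam1 : 1 ≤ lam := (le_max_right _ _).trans hl1
  have h1 := h x y lam ((le_max_left _ _).trans hx) hy1 hy2 ((le_max_left _ _).trans hl1) hl2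
  rw [count_eq _ hx0, count_eq _ hx0]
  refine le_trans ?_ h1
  have h2 : ((Finset.Icc 1 ⌊x⌋₊).filter fun n : ℕ => ExceedsBefore (lam * n) y n ∧ ¬ Tent η lam n) ⊆
      (Finset.Icc 1 ⌊x⌋₊).filter fun n : ℕ => Pool.Agent.W36.SL.Exc lam y n ∧
        ¬ Pool.Agent.H622.Sh.Tent (min η 1) lam n := by
    intro n hn
    rw [Finset.mem_filter] at hn ⊢
    refine ⟨hn.1, hn.2.1, fun hT => hn.2.2 ?_⟩
    exact Tent.mono (η := min η 1) hlam1 (min_le_left _ _) hT
  have h3 := Finset.card_le_card h2
  refine (Nat.cast_le (α := ℝ).2 ?_)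
  convert h3

end Pool.Agent.Results.MP_0a5adf_nt.TentShape
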